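import Pool.Agent.Q188.Hopf.Op

/-!
# Pinched curvature tensors whose curvature operator is indefinite
-/

set_option autoImplicit false

namespace Pool.Agent.Q188.Hopf

open Module Pool.Agent.W666.GB Pool.Agent.TH598.GV

/-- the standard Euclidean space of dimension `2 m` -/
abbrev Em (m : ℕ) : Type := EuclideanSpace ℝ (Fin m × Bool)

variable {m : ℕ}

/-- the standard symplectic form -/
noncomputable def sy (x y : Em m) : ℝ :=
  ∑ s, (x (s, false) * y (s, true) - x (s, true) * y (s, false))

theorem sy_add (x x' y : Em m) : sy (x + x') y = sy x y + sy x' y := by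
  simp only [sy, PiLp.add_apply, ← Finset.sum_add_distrib]
  exact Finset.sum_congr rfl fun _ _ => by ring

theorem sy_smul (t : ℝ) (x y : Em m) : sy (t • x) y = t * sy x y := by
  simp only [sy, PiLp.smul_apply, smul_eq_mul, Finset.mul_sum]
  exact Finset.sum_congr rfl fun _ _ => by ring

theorem sy_anti (x y : Em m) : sy y x = -sy x y := by
  simp only [sy, ← Finset.sum_neg_distrib]
  exact Finset.sum_congr rfl fun _ _ => by ring

theorem sy_sq (x y : Em m) : sy x y ^ 2 ≤ ‖x‖ ^ 2 * ‖y‖ ^ 2 := by
  have h1 : sy x y = ∑ i : Fin m × Bool, (if i.2 then x (i.1, false) else -x (i.1, true)) * y i := by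
    rw [Fintype.sum_prod_type]
    unfold sy
    refine Finset.sum_congr rfl fun s _ => ?_
    rw [Fintype.sum_bool]
    simp
    ring
  have h2 := Finset.sum_mul_sq_le_sq_mul_sq Finset.univ
    (fun i : Fin m × Bool => if i.2 then x (i.1, false) else -x (i.1, true)) (fun i => y i)
  rw [← h1] at h2
  have h3 : ∑ i : Fin m × Bool, (if i.2 then x (i.1, false) else -x (i.1, true)) ^ 2 =
      ‖x‖ ^ 2 := by
    rw [EuclideanSpace.norm_sq_eq, Fintype.sum_prod_type, Fintype.sum_prod_type]
    refine Finset.sum_congr rfl fun s _ => ?_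
    rw [Fintype.sum_bool, Fintype.sum_bool]
    simp
    ring
  have h4 : ∑ i : Fin m × Bool, y i ^ 2 = ‖y‖ ^ 2 := by
    rw [EuclideanSpace.norm_sq_eq]
    exact Finset.sum_congr rfl fun i _ => by rw [Real.norm_eq_abs, sq_abs]
  rw [h3, h4] at h2
  exact h2

/-- a curvature tensor with sectional curvatures between `-c` and `-(c - 3)` -/
noncomputable def exR (c : ℝ) (x y z w : Em m) : ℝ :=
  -c * (inner ℝ x z * inner ℝ y w - inner ℝ x w * inner ℝ y z) +
    (2 * sy x y * sy z w + sy x z * sy y w - sy x w * sy y z)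

theorem exR_curv (c : ℝ) : AlgCurv (exR c : Em m → Em m → Em m → Em m → ℝ) where
  add x x' y z w := by
    simp only [exR, sy_add, inner_add_left]; ring
  smul t x y z w := by
    simp only [exR, sy_smul, inner_smul_left, conj_trivial]; ring
  anti x y z w := by
    simp only [exR]
    rw [sy_anti x y]
    ring
  pair x y z w := by
    simp only [exR]
    rw [real_inner_comm z x, real_inner_comm w y, real_inner_comm z y, real_inner_comm w x,
      sy_anti x z, sy_anti y w, sy_anti y z, sy_anti x w]
    ring
  bianchi x y z w := by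
    simp only [exR]
    rw [real_inner_comm y x, real_inner_comm z x, real_inner_comm z y, sy_anti x y, sy_anti x z,
      sy_anti y z]
    ring

theorem exR_sec (c : ℝ) : SecIn (exR c : Em m → Em m → Em m → Em m → ℝ) (-c) (-(c - 3)) := by
  intro x y hx hy hxy
  have h1 : exR c x y x y = -c + 3 * sy x y ^ 2 := by
    simp only [exR]
    rw [real_inner_self_eq_norm_sq, real_inner_self_eq_norm_sq, hx, hy, hxy, real_inner_comm, hxy,
      sy_anti x y]
    have : sy x x = 0 := by have := sy_anti x x; linarith
    rw [this]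
    ring
  have h2 := sy_sq x y
  rw [hx, hy] at h2
  rw [h1]
  constructor <;> nlinarith [sq_nonneg (sy x y)]

/-- the basis vectors -/
noncomputable def eb (i : Fin m × Bool) : Em m := EuclideanSpace.single i 1

theorem sy_eb (s t : Fin m) : sy (eb (s, false)) (eb (t, true)) = if s = t then 1 else 0 := by
  simp only [sy, eb, PiLp.single_apply]
  simp only [Prod.mk.injEq, Bool.false_eq_true, and_false, Bool.true_eq_false, if_false, and_true,
    mul_zero, sub_zero]
  rw [Finset.sum_eq_single s]
  · simp
  · intro b _ hb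
    simp [hb]
  · simp

theorem sy_eb0 (s t : Fin m) : sy (eb (s, false)) (eb (t, false)) = 0 := by
  simp only [sy, eb, PiLp.single_apply]
  simp

theorem sy_eb1 (s t : Fin m) : sy (eb (s, true)) (eb (t, true)) = 0 := by
  simp only [sy, eb, PiLp.single_apply]
  simp

theorem inner_eb (i j : Fin m × Bool) : inner ℝ (eb i) (eb j) = if i = j then (1 : ℝ) else 0 := by
  simp only [eb]
  rw [EuclideanSpace.inner_single_left]
  simp [PiLp.single_apply]

theorem exR_eb (c : ℝ) (s t : Fin m) :
    exR c (eb (s, false)) (eb (s, true)) (eb (t, false)) (eb (t, true)) =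
      2 + (if s = t then 1 - c else 0) := by
  simp only [exR, sy_eb0, sy_eb1, inner_eb]
  have h1 : sy (eb (s, true)) (eb (t, false)) = -(if t = s then (1 : ℝ) else 0) := by
    rw [sy_anti, sy_eb]
  rw [h1, sy_eb, sy_eb, sy_eb]
  by_cases h : s = t
  · subst h
    simp
    ring
  · simp [h, Ne.symm h]

theorem exR_op (c : ℝ) (hc : c < 2 * m + 1) (hm : 0 < m) :
    ¬ OpNonposOn (exR c : Em m → Em m → Em m → Em m → ℝ) ⊤ := by
  intro h
  have h1 := h m (fun s => eb (s, false)) (fun s => eb (s, true)) (fun _ => trivial)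
    (fun _ => trivial)
  simp only [exR_eb, Finset.sum_add_distrib, Finset.sum_const, Finset.card_univ, Fintype.card_fin,
    nsmul_eq_mul, Finset.sum_ite_eq, Finset.mem_univ, if_true] at h1
  have hm' : (0 : ℝ) < m := by exact_mod_cast hm
  nlinarith

end Pool.Agent.Q188.Hopf
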