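import Pool.Agent.TH598.GV.Field2
import Pool.Agent.H821R2.Bivec

/-!
# Curvature operators on a subspace under pinching

If the sectional curvatures of the planes of a subspace `W` of dimension at most `2 k + 1` lie in
`[-b, -a]` and `2 (k - 1) (b - a) ≤ 3 a`, the curvature operator is nonpositive on the bivectors of `W`.
-/

set_option autoImplicit false

namespace Pool.Agent.Q188.Hopf

open Module Pool.Agent.W666.GB Pool.Agent.TH598.GV Pool.Agent.H821R2

variable {V : Type} [NormedAddCommGroup V] [InnerProductSpace ℝ V]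

/-- the functional `η ↦ R (η, z ∧ w)` on bivectors -/
noncomputable def opl [FiniteDimensional ℝ V] (R : V → V → V → V → ℝ) (z w : V) :
    ⋀[ℝ]^2 V →ₗ[ℝ] ℝ :=
  (1 / 2 : ℝ) • ∑ k, ∑ l, (R (stdOrthonormalBasis ℝ V k) (stdOrthonormalBasis ℝ V l) z w) •
    pair (stdOrthonormalBasis ℝ V k) (stdOrthonormalBasis ℝ V l)

theorem sum_eq [FiniteDimensional ℝ V] (L : V →ₗ[ℝ] V →ₗ[ℝ] ℝ) (a b : V) :
    ∑ k, ∑ l, L (stdOrthonormalBasis ℝ V k) (stdOrthonormalBasis ℝ V l) *
      (inner ℝ (stdOrthonormalBasis ℝ V k) a * inner ℝ (stdOrthonormalBasis ℝ V l) b) = L a b := by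
  have ha := (stdOrthonormalBasis ℝ V).sum_repr' a
  have hb := (stdOrthonormalBasis ℝ V).sum_repr' b
  conv_rhs => rw [← ha, ← hb]
  simp only [map_sum, map_smul, LinearMap.sum_apply, LinearMap.smul_apply, smul_eq_mul,
    Finset.mul_sum]
  rw [Finset.sum_comm]
  refine Finset.sum_congr rfl fun j _ => Finset.sum_congr rfl fun i _ => ?_
  ring

theorem opl_wedge [FiniteDimensional ℝ V] {R : V → V → V → V → ℝ} (hR : AlgCurv R)
    (x y z w : V) : opl R z w (wedge x y) = R x y z w := by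
  let L : V →ₗ[ℝ] V →ₗ[ℝ] ℝ := LinearMap.mk₂ ℝ (fun x y => R x y z w)
    (fun x x' y => hR.add x x' y z w) (fun c x y => by rw [hR.smul, smul_eq_mul])
    (fun x y y' => hR.add2 x y y' z w) (fun c x y => by rw [hR.smul2, smul_eq_mul])
  have e1 := sum_eq L x y
  have e2 := sum_eq L y x
  simp only [L, LinearMap.mk₂_apply] at e1 e2
  simp only [opl, LinearMap.smul_apply, LinearMap.sum_apply, pair_wedge, smul_eq_mul]
  have e3 : ∀ k l, R (stdOrthonormalBasis ℝ V k) (stdOrthonormalBasis ℝ V l) z w *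
      (inner ℝ (stdOrthonormalBasis ℝ V k) x * inner ℝ (stdOrthonormalBasis ℝ V l) y -
        inner ℝ (stdOrthonormalBasis ℝ V k) y * inner ℝ (stdOrthonormalBasis ℝ V l) x) =
      R (stdOrthonormalBasis ℝ V k) (stdOrthonormalBasis ℝ V l) z w *
        (inner ℝ (stdOrthonormalBasis ℝ V k) x * inner ℝ (stdOrthonormalBasis ℝ V l) y) -
      R (stdOrthonormalBasis ℝ V k) (stdOrthonormalBasis ℝ V l) z w *
        (inner ℝ (stdOrthonormalBasis ℝ V k) y * inner ℝ (stdOrthonormalBasis ℝ V l) x) := by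
    intro k l; ring
  simp only [e3, Finset.sum_sub_distrib]
  rw [e1, e2, hR.anti x y z w]
  ring

/-- the off-diagonal bound -/
theorem off_bound {R : V → V → V → V → ℝ} (hR : AlgCurv R) {a b : ℝ} (hab : a ≤ b)
    (hs : SecIn R (-b) (-a)) (x y z w : V) (hx : ‖x‖ = 1) (hy : ‖y‖ = 1) (hz : ‖z‖ = 1)
    (hw : ‖w‖ = 1) (h1 : inner ℝ x z = (0 : ℝ)) (h2 : inner ℝ x w = (0 : ℝ)) :
    |R x y z w| ≤ 2 / 3 * (b - a) := by
  have hE := shift_curv hR ((a + b) / 2)
  have hsE : SecIn (shiftT R ((a + b) / 2)) (-((b - a) / 2)) ((b - a) / 2) := by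
    intro x y hx hy hxy
    have h3 := hs x y hx hy hxy
    have h4 : shiftT R ((a + b) / 2) x y x y = R x y x y + (a + b) / 2 := by
      simp only [shiftT]
      rw [real_inner_self_eq_norm_sq, real_inner_self_eq_norm_sq, hxy, hx, hy]; ring
    rw [h4]
    constructor <;> linarith [h3.1, h3.2]
  have hη : 0 ≤ (b - a) / 2 := by linarith
  have h5 := hE.pol3 hη (hE.sec_all hη hsE) x y z w hx hy hz hw
  have h6 : shiftT R ((a + b) / 2) x y z w = R x y z w := by
    simp only [shiftT]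
    rw [h1, h2]; ring
  rw [h6] at h5
  linarith

/-- the curvature operator on a bivector in normal form -/
theorem normal_bound {R : V → V → V → V → ℝ} (hR : AlgCurv R) {a b : ℝ} (hab : a ≤ b)
    (hs : SecIn R (-b) (-a)) {M : ℕ} (u v : Fin M → V) (c : Fin M → ℝ)
    (huu : ∀ i j, inner ℝ (u i) (u j) = if i = j then (1 : ℝ) else 0)
    (hvv : ∀ i j, inner ℝ (v i) (v j) = if i = j then (1 : ℝ) else 0)
    (huv : ∀ i j, inner ℝ (u i) (v j) = (0 : ℝ)) (hM : 2 * ((M : ℝ) - 1) * (b - a) ≤ 3 * a) :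
    ∑ i, ∑ j, c i * c j * R (u i) (v i) (u j) (v j) ≤ 0 := by
  have hu1 : ∀ i, ‖u i‖ = 1 := by
    intro i
    have := huu i i
    rw [if_pos rfl, real_inner_self_eq_norm_sq] at this
    nlinarith [norm_nonneg (u i)]
  have hv1 : ∀ i, ‖v i‖ = 1 := by
    intro i
    have := hvv i i
    rw [if_pos rfl, real_inner_self_eq_norm_sq] at this
    nlinarith [norm_nonneg (v i)]
  set d : ℝ := 2 / 3 * (b - a) with hd
  have hd0 : 0 ≤ d := by rw [hd]; linarith
  have hterm : ∀ i j, c i * c j * R (u i) (v i) (u j) (v j) ≤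
      d * (|c i| * |c j|) - (if i = j then (a + d) * c i ^ 2 else 0) := by
    intro i j
    by_cases hij : i = j
    · subst hij
      rw [if_pos rfl]
      have h1 := (hs (u i) (v i) (hu1 i) (hv1 i) (huv i i)).2
      have h2 : |c i| * |c i| = c i ^ 2 := by rw [← sq, sq_abs]
      rw [h2]
      nlinarith [sq_nonneg (c i)]
    · rw [if_neg hij, sub_zero]
      have h1 : inner ℝ (u i) (u j) = (0 : ℝ) := by rw [huu, if_neg hij]
      have h2 := off_bound hR hab hs (u i) (v i) (u j) (v j) (hu1 i) (hv1 i) (hu1 j) (hv1 j) h1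
        (huv i j)
      calc c i * c j * R (u i) (v i) (u j) (v j) ≤ |c i * c j * R (u i) (v i) (u j) (v j)| :=
            le_abs_self _
        _ = |c i| * |c j| * |R (u i) (v i) (u j) (v j)| := by rw [abs_mul, abs_mul]
        _ ≤ |c i| * |c j| * d := by gcongr
        _ = _ := by ring
  refine (Finset.sum_le_sum fun i _ => Finset.sum_le_sum fun j _ => hterm i j).trans ?_
  have h1 : ∑ i, ∑ j, (d * (|c i| * |c j|) - (if i = j then (a + d) * c i ^ 2 else 0)) =
      d * (∑ i, |c i|) ^ 2 - (a + d) * ∑ i, c i ^ 2 := by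
    simp only [Finset.sum_sub_distrib, Finset.sum_ite_eq, Finset.mem_univ, if_true]
    rw [sq (∑ i, |c i|), Finset.sum_mul_sum]
    simp only [Finset.mul_sum]
  rw [h1]
  have h2 : (∑ i, |c i|) ^ 2 ≤ M * ∑ i, c i ^ 2 := by
    have := sq_sum_le_card_mul_sum_sq (s := (Finset.univ : Finset (Fin M))) (f := fun i => |c i|)
    simpa [sq_abs] using this
  have h3 : 0 ≤ ∑ i, c i ^ 2 := Finset.sum_nonneg fun _ _ => sq_nonneg _
  have h4 : d * (∑ i, |c i|) ^ 2 ≤ d * (M * ∑ i, c i ^ 2) := mul_le_mul_of_nonneg_left h2 hd0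
  have h5 : (d * M - (a + d)) ≤ 0 := by
    rw [hd]; nlinarith
  nlinarith

/-- the curvature operator on all bivectors of a space of dimension at most `2 k + 1` -/
theorem op_all [FiniteDimensional ℝ V] {R : V → V → V → V → ℝ} (hR : AlgCurv R) {a b : ℝ}
    (hab : a ≤ b) (hs : SecIn R (-b) (-a)) {k : ℕ} (hk : finrank ℝ V ≤ 2 * k + 1)
    (hkab : 2 * ((k : ℝ) - 1) * (b - a) ≤ 3 * a) (n : ℕ) (x y : Fin n → V) :
    ∑ i, ∑ j, R (x i) (y i) (x j) (y j) ≤ 0 := by
  obtain ⟨M, u, v, c, hM, huu, hvv, huv, hη⟩ :=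
    exists_normal_form (finrank ℝ V) V rfl (∑ i, wedge (x i) (y i))
  have h1 : ∀ z w, ∑ i, R (x i) (y i) z w = ∑ s, c s * R (u s) (v s) z w := by
    intro z w
    have h2 := congrArg (opl R z w) hη
    simpa only [map_sum, map_smul, opl_wedge hR, smul_eq_mul] using h2
  have h3 : ∑ i, ∑ j, R (x i) (y i) (x j) (y j) =
      ∑ s, ∑ t, c s * c t * R (u s) (v s) (u t) (v t) := by
    rw [Finset.sum_comm]
    simp only [h1]
    rw [Finset.sum_comm]
    refine Finset.sum_congr rfl fun s _ => ?_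
    rw [← Finset.mul_sum]
    have h4 : ∀ j, R (u s) (v s) (x j) (y j) = R (x j) (y j) (u s) (v s) := fun j => by
      rw [hR.pair]
    simp only [h4]
    rw [h1, Finset.mul_sum]
    refine Finset.sum_congr rfl fun t _ => ?_
    rw [hR.pair (u t) (v t) (u s) (v s)]
    ring
  rw [h3]
  refine normal_bound hR hab hs u v c huu hvv huv ?_
  have hMk : (M : ℝ) ≤ k := by
    have : M ≤ k := by omega
    exact_mod_cast this
  nlinarith

/-- the restriction of a curvature tensor to a subspace -/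
theorem restr {R : V → V → V → V → ℝ} (hR : AlgCurv R) (W : Submodule ℝ V) :
    AlgCurv (fun x y z w : W => R x y z w) where
  add _ _ _ _ _ := hR.add _ _ _ _ _
  smul _ _ _ _ _ := hR.smul _ _ _ _ _
  anti _ _ _ _ := hR.anti _ _ _ _
  pair _ _ _ _ := hR.pair _ _ _ _
  bianchi _ _ _ _ := hR.bianchi _ _ _ _

/-- **Pinching on a subspace implies that the curvature operator is nonpositive on its bivectors.** -/
theorem op_sub {R : V → V → V → V → ℝ} (hR : AlgCurv R) (W : Submodule ℝ V)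
    [FiniteDimensional ℝ W] {a b : ℝ}
    (hab : a ≤ b)
    (hs : ∀ x ∈ W, ∀ y ∈ W, ‖x‖ = 1 → ‖y‖ = 1 → inner ℝ x y = (0 : ℝ) →
      -b ≤ R x y x y ∧ R x y x y ≤ -a) {k : ℕ} (hk : finrank ℝ W ≤ 2 * k + 1)
    (hkab : 2 * ((k : ℝ) - 1) * (b - a) ≤ 3 * a) : OpNonposOn R W := by
  intro n x y hx hy
  have h1 := op_all (restr hR W) hab (fun x y h1 h2 h3 => hs x x.2 y y.2 h1 h2 h3) hk hkab n
    (fun i => ⟨x i, hx i⟩) (fun i => ⟨y i, hy i⟩)
  exact h1

/-- Complex sectional curvatures under pinching. -/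
theorem cx_of_sec {R : V → V → V → V → ℝ} (hR : AlgCurv R) {a b : ℝ} (hab : a ≤ b)
    (hs : SecIn R (-b) (-a)) : CxNonpos (shiftT R ((5 * a - 2 * b) / 3)) := by
  intro x y u v
  set κ : ℝ := (5 * a - 2 * b) / 3 with hκ
  have hS := shift_curv hR κ
  have hsS : ∀ x y : V, ‖x‖ = 1 → ‖y‖ = 1 → inner ℝ x y = (0 : ℝ) →
      -(b - κ) ≤ shiftT R κ x y x y ∧ shiftT R κ x y x y ≤ -(a - κ) := by
    intro x y hx hy hxy
    have h3 := hs x y hx hy hxy
    have h4 : shiftT R κ x y x y = R x y x y + κ := by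
      simp only [shiftT]
      rw [real_inner_self_eq_norm_sq, real_inner_self_eq_norm_sq, hxy, hx, hy]; ring
    rw [h4]
    constructor <;> linarith [h3.1, h3.2]
  let W : Submodule ℝ V := Submodule.span ℝ (Set.range ![x, y, u, v])
  have hfin : FiniteDimensional ℝ W := FiniteDimensional.span_of_finite ℝ (Set.finite_range _)
  have hW : finrank ℝ W ≤ 2 * 2 + 1 := by
    have := finrank_range_le_card (R := ℝ) ![x, y, u, v]
    have h4 : Fintype.card (Fin 4) = 4 := Fintype.card_fin 4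
    rw [h4] at this
    exact this.trans (by norm_num)
  have hO : OpNonposOn (shiftT R κ) W :=
    op_sub hS W (by linarith) (fun x _ y _ => hsS x y) hW
      (by rw [hκ]; push_cast; linarith)
  have hmem : ∀ i, (![x, y, u, v] : Fin 4 → V) i ∈ W := fun i =>
    Submodule.subset_span (Set.mem_range_self i)
  have hx : x ∈ W := hmem 0
  have hy : y ∈ W := hmem 1
  have hu : u ∈ W := hmem 2
  have hv : v ∈ W := hmem 3
  have h1 := hO 2 ![x, -y] ![u, v] (by
      intro i; fin_cases i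
      · exact hx
      · exact W.neg_mem hy) (by
      intro i; fin_cases i
      · exact hu
      · exact hv)
  have h2 := hO 2 ![x, y] ![v, u] (by
      intro i; fin_cases i
      · exact hx
      · exact hy) (by
      intro i; fin_cases i
      · exact hv
      · exact hu)
  simp only [Fin.sum_univ_two, Matrix.cons_val_zero, Matrix.cons_val_one] at h1 h2
  have n1 : ∀ p q r : V, shiftT R κ (-y) p q r = -shiftT R κ y p q r := by
    intro p q r
    have := hS.smul (-1) y p q r
    rw [neg_one_smul] at this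
    linarith
  have n3 : ∀ p q r : V, shiftT R κ p q (-y) r = -shiftT R κ p q y r := by
    intro p q r
    have := hS.smul3 (-1) p q y r
    rw [neg_one_smul] at this
    linarith
  simp only [n1, n3] at h1
  have e1 := hS.pair x u y v
  have e2 := hS.pair x v y u
  linarith

end Pool.Agent.Q188.Hopf
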